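import Pool.Agent.H.MP_a981ee_lc.C

namespace Pool.Agent.Results.MP_a981ee_lc.Confluent

open Relation Pool.Agent.H.MP_a981ee_lc

theorem result (t t₁ t₂ : Tm) (h₁ : ReflTransGen R t t₁) (h₂ : ReflTransGen R t t₂) :
    ∃ u, ReflTransGen R t₁ u ∧ ReflTransGen R t₂ u :=
  church_rosser ((Rs_Q h₁).symm.trans (Rs_Q h₂))

end Pool.Agent.Results.MP_a981ee_lc.Confluent
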